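import Pool.Agent.L5helper98.ID.Defs

set_option autoImplicit false

open MeasureTheory ProbabilityTheory Filter Topology Set
open Pool.Agent.L5helper98.ID

namespace Pool.Agent.L5helper96.ID

theorem tri_meas : Measurable (fun p : ℝ × ℝ => tri p.1 p.2) := by
  unfold tri
  fun_prop

theorem tri_abs_le {t : ℝ} (ht : 0 ≤ t) (x : ℝ) : |tri t x| ≤ 1 := by
  unfold tri
  have : 0 ≤ |x| / t := by positivity
  rw [abs_of_nonneg (le_max_right _ _)]
  exact max_le (by linarith) zero_le_one

theorem tri_int {f : ℝ → ℝ} (hf : Continuous f) (hc : HasCompactSupport f) {t : ℝ} (ht : 0 ≤ t) :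
    Integrable (fun z : ℝ × ℝ => tri t (z.1 - z.2) * f z.1 * f z.2) (volume.prod volume) := by
  have hfi : Integrable f := hf.integrable_of_hasCompactSupport hc
  have h2 : Integrable (fun z : ℝ × ℝ => f z.1 * f z.2) (volume.prod volume) := hfi.mul_prod hfi
  have hm : Measurable (fun z : ℝ × ℝ => tri t (z.1 - z.2)) :=
    tri_meas.comp (measurable_const.prodMk (measurable_fst.sub measurable_snd))
  have h3 := h2.bdd_mul (c := 1) hm.aestronglyMeasurable
    (Eventually.of_forall fun z => by
      rw [Real.norm_eq_abs]; exact tri_abs_le ht _)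
  refine h3.congr (Eventually.of_forall fun z => ?_)
  simp only
  ring

/-- PDL: `log⁺ (1/|x|)` is positive definite -/
theorem PDL_holds (hT : St_TRI) (hM : St_MIX) : St_PDL := by
  refine ⟨fun x => by simp [L5helper98.ID.lp], fun f hf hc => ?_⟩
  obtain ⟨hpos, C, hC⟩ := hT f hf hc
  set Φ : ℝ × (ℝ × ℝ) → ℝ := fun p => tri p.1 (p.2.1 - p.2.2) / p.1 * (f p.2.1 * f p.2.2) with hΦ
  have hΦm : Measurable Φ := by
    have h1 : Measurable (fun p : ℝ × (ℝ × ℝ) => tri p.1 (p.2.1 - p.2.2)) :=
      tri_meas.comp (by fun_prop : Measurable (fun p : ℝ × (ℝ × ℝ) => (p.1, p.2.1 - p.2.2)))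
    have h2 : Measurable f := hf.measurable
    exact (h1.div measurable_fst).mul ((h2.comp (by fun_prop)).mul (h2.comp (by fun_prop)))
  have hsec : ∀ t : ℝ, 0 < t →
      Integrable (fun z : ℝ × ℝ => Φ (t, z)) (volume.prod volume) := by
    intro t ht
    refine ((tri_int hf hc ht.le).const_mul (1 / t)).congr (Eventually.of_forall fun z => ?_)
    simp only [hΦ]
    ring
  have hΦi : Integrable Φ ((volume.restrict (Ioc (0 : ℝ) 1)).prod (volume.prod volume)) := by
    rw [integrable_prod_iff hΦm.aestronglyMeasurable]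
    constructor
    · rw [ae_restrict_iff' measurableSet_Ioc]
      exact Eventually.of_forall fun t ht => hsec t ht.1
    · have hb : ∀ t ∈ Ioc (0 : ℝ) 1, ∫ z, ‖Φ (t, z)‖ ∂(volume.prod volume) ≤ C := by
        intro t ht
        have h1 : ∫ z : ℝ × ℝ, ‖Φ (t, z)‖ ∂(volume.prod volume) =
            (1 / t) * ∫ z : ℝ × ℝ, |tri t (z.1 - z.2) * f z.1 * f z.2| ∂(volume.prod volume) := by
          rw [← integral_const_mul]
          refine integral_congr_ae (Eventually.of_forall fun z => ?_)
          simp only [hΦ, Real.norm_eq_abs]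
          rw [show tri t (z.1 - z.2) / t * (f z.1 * f z.2) =
            (1 / t) * (tri t (z.1 - z.2) * f z.1 * f z.2) by ring, abs_mul,
            abs_of_pos (one_div_pos.2 ht.1)]
        rw [h1, integral_prod _ (tri_int hf hc ht.1.le).abs]
        have h2 := hC t ht.1 ht.2
        have h3 : 0 < 1 / t := one_div_pos.2 ht.1
        calc 1 / t * ∫ x, ∫ y, |tri t (x - y) * f x * f y| ≤ 1 / t * (C * t) :=
              mul_le_mul_of_nonneg_left h2 h3.le
          _ = C := by field_simp [ht.1.ne']
      refine Integrable.mono' (g := fun _ => C) (integrable_const C)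
        (hΦm.norm.aestronglyMeasurable.integral_prod_right') ?_
      rw [ae_restrict_iff' measurableSet_Ioc]
      refine Eventually.of_forall fun t ht => ?_
      rw [Real.norm_eq_abs, abs_of_nonneg (integral_nonneg fun _ => norm_nonneg _)]
      exact hb t ht
  set A : ℝ × ℝ → ℝ := fun z => tri 1 (z.1 - z.2) * f z.1 * f z.2 with hA
  set B : ℝ × ℝ → ℝ := fun z => ∫ t in Ioc (0 : ℝ) 1, Φ (t, z) with hB
  have hAi : Integrable A (volume.prod volume) := tri_int hf hc zero_le_one
  have hBi : Integrable B (volume.prod volume) := hΦi.integral_prod_right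
  have key : ∫ x, ∫ y, L5helper98.ID.lp (x - y) * f x * f y = ∫ x, ∫ y, (A (x, y) + B (x, y)) := by
    refine integral_congr_ae (Eventually.of_forall fun x => ?_)
    refine integral_congr_ae ?_
    have hne : ∀ᵐ y : ℝ, y ≠ x := by
      rw [ae_iff]
      simp
    filter_upwards [hne] with y hy
    have hxy : x - y ≠ 0 := sub_ne_zero.2 (Ne.symm hy)
    obtain ⟨-, h2⟩ := hM (x - y) hxy
    rw [h2]
    simp only [hA, hB, hΦ]
    rw [integral_mul_const]
    ring
  rw [key, ← integral_prod (fun z => A z + B z) (hAi.add hBi), integral_add hAi hBi]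
  have h1 : 0 ≤ ∫ z, A z ∂(volume.prod volume) := by
    rw [integral_prod _ hAi]
    exact hpos 1 one_pos
  have h2 : 0 ≤ ∫ z, B z ∂(volume.prod volume) := by
    have h3 : ∫ z, B z ∂(volume.prod volume) =
        ∫ t in Ioc (0 : ℝ) 1, ∫ z, Φ (t, z) ∂(volume.prod volume) :=
      (integral_integral_swap (f := fun t z => Φ (t, z)) hΦi).symm
    rw [h3]
    refine setIntegral_nonneg measurableSet_Ioc fun t ht => ?_
    rw [integral_prod _ (hsec t ht.1)]
    have h4 : ∫ x, ∫ y, Φ (t, (x, y)) = (1 / t) * ∫ x, ∫ y, tri t (x - y) * f x * f y := by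
      rw [← integral_const_mul]
      refine integral_congr_ae (Eventually.of_forall fun x => ?_)
      simp only
      rw [← integral_const_mul]
      refine integral_congr_ae (Eventually.of_forall fun y => ?_)
      simp only [hΦ]
      ring
    rw [h4]
    exact mul_nonneg (one_div_pos.2 ht.1).le (hpos t ht.1)
  exact add_nonneg h1 h2

end Pool.Agent.L5helper96.ID
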